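import Mathlib

/-! # Osgood's inequality -/

set_option autoImplicit false

open MeasureTheory Set Filter
open scoped Topology

namespace Pool.Agent.Zk50.MB4

variable {m : ℝ → ℝ} (hpos : ∀ r, 0 < r → 0 < m r) (hmono : ∀ r s, 0 < r → r ≤ s → m r ≤ m s)
  (hanti : ∀ r s, 0 < r → r ≤ s → m s / s ≤ m r / r)

include hpos hmono hanti

lemma m_cont {r : ℝ} (hr : 0 < r) : ContinuousAt m r := by
  have key : ∀ s, 0 < s → |m s - m r| ≤ |s / r - 1| * m r := by
    intro s hs
    have hmr := hpos r hr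
    rcases le_total r s with h | h
    · have h1 := hmono r s hr h
      have h2 := hanti r s hr h
      rw [div_le_div_iff₀ hs hr] at h2
      have h3 : 1 ≤ s / r := (one_le_div hr).2 h
      rw [abs_of_nonneg (by linarith), abs_of_nonneg (by linarith)]
      have h4 : m s ≤ s / r * m r := by
        rw [div_mul_eq_mul_div, le_div_iff₀ hr]
        linarith
      linarith
    · have h1 := hmono s r hs h
      have h2 := hanti s r hs h
      rw [div_le_div_iff₀ hr hs] at h2
      have h3 : s / r ≤ 1 := (div_le_one hr).2 h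
      rw [abs_of_nonpos (by linarith), abs_of_nonpos (by linarith)]
      have h4 : s / r * m r ≤ m s := by
        rw [div_mul_eq_mul_div, div_le_iff₀ hr]
        linarith
      linarith
  have h1 : Tendsto (fun s => |s / r - 1| * m r) (𝓝 r) (𝓝 0) := by
    have h2 : ContinuousAt (fun s : ℝ => |s / r - 1| * m r) r := by fun_prop
    have h3 : |r / r - 1| * m r = 0 := by rw [div_self hr.ne']; simp
    have h4 := h2.tendsto
    rwa [h3] at h4
  rw [ContinuousAt, tendsto_iff_dist_tendsto_zero]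
  refine squeeze_zero' (Eventually.of_forall fun s => dist_nonneg) ?_ h1
  filter_upwards [Ioi_mem_nhds hr] with s hs
  rw [Real.dist_eq]
  exact key s hs

lemma hh_mono {g g' : ℝ} (hg : 0 ≤ g) (h : g ≤ g') :
    (1 + g) ^ 2 * m (1 / (1 + g)) ≤ (1 + g') ^ 2 * m (1 / (1 + g')) := by
  have _ := hmono
  have hg' : 0 ≤ g' := hg.trans h
  have h1 : (0 : ℝ) < 1 / (1 + g') := by positivity
  have h2 : 1 / (1 + g') ≤ 1 / (1 + g) := one_div_le_one_div_of_le (by linarith) (by linarith)
  have h3 := hanti _ _ h1 h2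
  rw [div_div_eq_mul_div, div_one, div_div_eq_mul_div, div_one] at h3
  have h4 : 0 ≤ m (1 / (1 + g)) * (1 + g) := by
    have := hpos (1 / (1 + g)) (by positivity)
    positivity
  calc (1 + g) ^ 2 * m (1 / (1 + g)) = (1 + g) * (m (1 / (1 + g)) * (1 + g)) := by ring
    _ ≤ (1 + g') * (m (1 / (1 + g')) * (1 + g')) := by gcongr
    _ = (1 + g') ^ 2 * m (1 / (1 + g')) := by ring

lemma hh_cont {g : ℝ → ℝ} (hg : Continuous g) (hg0 : ∀ t, 0 ≤ g t) :
    Continuous fun t => (1 + g t) ^ 2 * m (1 / (1 + g t)) := by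
  have h1 : Continuous fun t => 1 / (1 + g t) :=
    continuous_const.div (continuous_const.add hg) fun t => by linarith [hg0 t]
  have h2 : Continuous fun t => m (1 / (1 + g t)) := by
    rw [continuous_iff_continuousAt]
    intro t
    have h3 : (0 : ℝ) < 1 / (1 + g t) := by have := hg0 t; positivity
    exact ContinuousAt.comp (f := fun t => 1 / (1 + g t)) (m_cont hpos hmono hanti h3)
      h1.continuousAt
  exact ((continuous_const.add hg).pow 2).mul h2

lemma inv_cont : ContinuousOn (fun r => 1 / m r) (Ioi 0) := fun r hr =>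
  (continuousAt_const.div (m_cont hpos hmono hanti hr) (hpos r hr).ne').continuousWithinAt

lemma inv_int {a c : ℝ} (ha : 0 < a) (hc : 0 < c) :
    IntervalIntegrable (fun r => 1 / m r) volume a c := by
  refine ((inv_cont hpos hmono hanti).mono ?_).intervalIntegrable
  intro x hx
  exact (lt_min ha hc).trans_le hx.1

/-- Osgood's inequality. -/
theorem osg (hos : ¬ IntegrableOn (fun r => 1 / m r) (Ioc 0 1)) {κ G₀ b : ℝ} (hκ : 0 ≤ κ)
    (hG₀ : 0 ≤ G₀) : ∃ M : ℝ, ∀ τ ∈ Ico 0 b, ∀ g : ℝ → ℝ, Continuous g → (∀ t, 0 ≤ g t) →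
      (∀ t ∈ Icc 0 τ, g t ≤ G₀ + ∫ s in (0 : ℝ)..t, κ * ((1 + g s) ^ 2 * m (1 / (1 + g s)))) →
      g τ ≤ M := by
  set Θ : ℝ → ℝ := fun ρ => ∫ x in ρ..1, 1 / m x with hΘ
  have hex : ∃ ρ : ℝ, 0 < ρ ∧ ρ ≤ 1 ∧ Θ (1 / (1 + G₀)) + κ * b < Θ ρ := by
    by_contra hcon
    push Not at hcon
    apply hos
    have ha : ∀ n : ℕ, (0 : ℝ) < 1 / (n + 1) := fun n => by positivity
    have ha1 : ∀ n : ℕ, 1 / ((n : ℝ) + 1) ≤ 1 := fun n => by
      rw [div_le_one (by positivity)]; linarith [(Nat.cast_nonneg n : (0 : ℝ) ≤ n)]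
    refine integrableOn_Ioc_of_intervalIntegral_norm_bounded_left (l := atTop)
      (a := fun n : ℕ => 1 / ((n : ℝ) + 1)) (I := Θ (1 / (1 + G₀)) + κ * b) ?_
      tendsto_one_div_add_atTop_nhds_zero_nat ?_
    · intro n
      exact (intervalIntegrable_iff_integrableOn_Ioc_of_le (ha1 n)).1
        (inv_int hpos hmono hanti (ha n) one_pos)
    · refine Eventually.of_forall fun n => ?_
      have h1 := hcon _ (ha n) (ha1 n)
      have h2 : ∫ x in Ioc (1 / ((n : ℝ) + 1)) 1, ‖1 / m x‖ =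
          ∫ x in Ioc (1 / ((n : ℝ) + 1)) 1, 1 / m x := by
        refine setIntegral_congr_fun measurableSet_Ioc fun x hx => ?_
        have hx0 : 0 < x := (ha n).trans hx.1
        have := hpos x hx0
        simp only [Real.norm_eq_abs]
        exact abs_of_pos (by positivity)
      rw [h2, ← intervalIntegral.integral_of_le (ha1 n)]
      exact h1
  obtain ⟨ρ, hρ0, hρ1, hρ⟩ := hex
  refine ⟨1 / ρ, fun τ hτ g hg hg0 hin => ?_⟩
  set hh : ℝ → ℝ := fun t => κ * ((1 + g t) ^ 2 * m (1 / (1 + g t))) with hhh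
  have hhc : Continuous hh := continuous_const.mul (hh_cont hpos hmono hanti hg hg0)
  have hhn : ∀ t, 0 ≤ hh t := fun t => by
    have h1 : 0 < m (1 / (1 + g t)) := hpos _ (by have := hg0 t; positivity)
    have := hg0 t
    simp only [hhh]
    positivity
  set R : ℝ → ℝ := fun t => G₀ + ∫ s in (0 : ℝ)..t, hh s with hR
  have hRd : ∀ t, HasDerivAt R (hh t) t := fun t =>
    (intervalIntegral.integral_hasDerivAt_right (hhc.intervalIntegrable _ _)
      (hhc.stronglyMeasurableAtFilter _ _) hhc.continuousAt).const_add G₀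
  have hR0 : ∀ t, 0 ≤ t → 0 ≤ R t := fun t ht =>
    add_nonneg hG₀ (intervalIntegral.integral_nonneg ht fun s _ => hhn s)
  have hRg : ∀ t ∈ Icc 0 τ, g t ≤ R t := hin
  have hΘd : ∀ r, 0 < r → HasDerivAt Θ (-(1 / m r)) r := fun r hr =>
    intervalIntegral.integral_hasDerivAt_left (inv_int hpos hmono hanti hr one_pos)
      ((inv_cont hpos hmono hanti).stronglyMeasurableAtFilter isOpen_Ioi r hr)
      (continuousAt_const.div (m_cont hpos hmono hanti hr) (hpos r hr).ne')
  set P : ℝ → ℝ := fun t => Θ (1 / (1 + R t)) with hP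
  have hPd : ∀ t ∈ Icc 0 τ, HasDerivAt P (-(1 / m (1 / (1 + R t))) * (-(hh t) / (1 + R t) ^ 2)) t := by
    intro t ht
    have h1 := hR0 t ht.1
    have h2 : HasDerivAt (fun t => 1 / (1 + R t)) (-(hh t) / (1 + R t) ^ 2) t := by
      have h3 := ((hRd t).const_add 1).inv (by linarith : (1 : ℝ) + R t ≠ 0)
      have h4 : (fun t => 1 / (1 + R t)) = (fun t => 1 + R t)⁻¹ := by
        funext t; simp
      rw [h4]
      exact h3
    exact (hΘd (1 / (1 + R t)) (by positivity)).comp t h2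
  have hPle : ∀ t ∈ Icc 0 τ, -(1 / m (1 / (1 + R t))) * (-(hh t) / (1 + R t) ^ 2) ≤ κ := by
    intro t ht
    have h1 := hR0 t ht.1
    have h2 : 0 < m (1 / (1 + R t)) := hpos _ (by positivity)
    have h3 := mul_le_mul_of_nonneg_left (hh_mono hpos hmono hanti (hg0 t) (hRg t ht)) hκ
    have h4 : -(1 / m (1 / (1 + R t))) * (-(hh t) / (1 + R t) ^ 2) =
        hh t / ((1 + R t) ^ 2 * m (1 / (1 + R t))) := by
      field_simp
    rw [h4, div_le_iff₀ (by positivity)]
    exact h3
  have h5 : P τ - P 0 ≤ κ * (τ - 0) := by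
    refine Convex.image_sub_le_mul_sub_of_deriv_le (convex_Icc 0 τ)
      (fun t ht => (hPd t ht).continuousAt.continuousWithinAt)
      (fun t ht => (hPd t (interior_subset ht)).differentiableAt.differentiableWithinAt)
      (fun t ht => ?_) 0 ⟨le_rfl, hτ.1⟩ τ ⟨hτ.1, le_rfl⟩ hτ.1
    rw [(hPd t (interior_subset ht)).deriv]
    exact hPle t (interior_subset ht)
  have h6 : P 0 = Θ (1 / (1 + G₀)) := by
    simp only [hP, hR, intervalIntegral.integral_same, add_zero]
  have h7 : ρ < 1 / (1 + R τ) := by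
    by_contra hcon
    push Not at hcon
    have h8 := hR0 τ hτ.1
    have h9 : (0 : ℝ) < 1 / (1 + R τ) := by positivity
    have h10 : Θ (1 / (1 + R τ)) = (∫ x in (1 / (1 + R τ))..ρ, 1 / m x) + Θ ρ :=
      (intervalIntegral.integral_add_adjacent_intervals (inv_int hpos hmono hanti h9 hρ0)
        (inv_int hpos hmono hanti hρ0 one_pos)).symm
    have h11 : 0 ≤ ∫ x in (1 / (1 + R τ))..ρ, 1 / m x := by
      refine intervalIntegral.integral_nonneg hcon fun x hx => ?_
      have := hpos x (h9.trans_le hx.1)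
      positivity
    have h12 : κ * τ ≤ κ * b := mul_le_mul_of_nonneg_left hτ.2.le hκ
    have h13 : P τ = Θ (1 / (1 + R τ)) := rfl
    linarith
  have h8 := hR0 τ hτ.1
  have h9 : R τ ≤ 1 / ρ := by
    rw [lt_div_iff₀ (by linarith)] at h7
    rw [le_div_iff₀ hρ0]
    linarith
  exact (hRg τ ⟨hτ.1, le_rfl⟩).trans h9

end Pool.Agent.Zk50.MB4
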