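import Pool.Agent.Zk50.MB4.Ev
import Pool.Agent.Zk50.MB4.Osg

/-!
# No blow-up of parallel solutions for moduli of continuity with Osgood's condition
-/

set_option autoImplicit false

open MeasureTheory Set Filter
open scoped ContDiff Topology

namespace Pool.Agent.Zk50.MB4

open Pool.Agent.H708R2.EulerSign Pool.Agent.Zk27

/-- The gradient of a solution is continuous in time and space. -/
lemma grad_cont {b : ℝ} {u : ℝ → V → V}
    (hu : ContDiffOn ℝ 1 (fun z : ℝ × V => u z.1 z.2) (Ico 0 b ×ˢ univ)) :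
    ContinuousOn (fun z : ℝ × V => fderiv ℝ (u z.1) z.2) (Ico 0 b ×ˢ univ) := by
  have hU : UniqueDiffOn ℝ (Ico 0 b ×ˢ (univ : Set V)) :=
    (uniqueDiffOn_Ico 0 b).prod uniqueDiffOn_univ
  have hd := hu.continuousOn_fderivWithin hU le_rfl
  have h1 : ContinuousOn (fun z : ℝ × V =>
      (fderivWithin ℝ (fun z : ℝ × V => u z.1 z.2) (Ico 0 b ×ˢ univ) z).comp
        (ContinuousLinearMap.inr ℝ ℝ V)) (Ico 0 b ×ˢ univ) :=
    hd.clm_comp continuousOn_const
  refine h1.congr fun z hz => ?_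
  obtain ⟨t, x⟩ := z
  have h4 : HasFDerivWithinAt (fun p : ℝ × V => u p.1 p.2)
      (fderivWithin ℝ (fun p : ℝ × V => u p.1 p.2) (Ico 0 b ×ˢ univ) (t, x))
      (Ico 0 b ×ˢ univ) (t, x) :=
    ((hu.differentiableOn one_ne_zero) (t, x) hz).hasFDerivWithinAt
  have h5 : HasFDerivAt (fun y : V => ((t, y) : ℝ × V)) (ContinuousLinearMap.inr ℝ ℝ V) x :=
    hasFDerivAt_prodMk_right t x
  have h6 : HasFDerivAt (u t)
      ((fderivWithin ℝ (fun p : ℝ × V => u p.1 p.2) (Ico 0 b ×ˢ univ) (t, x)).comp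
        (ContinuousLinearMap.inr ℝ ℝ V)) x := by
    rw [← hasFDerivWithinAt_univ] at h5 ⊢
    exact h4.comp x h5 (fun y _ => ⟨hz.1, mem_univ _⟩)
  exact h6.fderiv

/-- The maximum of the gradient as a continuous function of the time. -/
lemma exists_max {b : ℝ} {u : ℝ → V → V}
    (hu : ContDiffOn ℝ 1 (fun z : ℝ × V => u z.1 z.2) (Ico 0 b ×ˢ univ))
    (hp : ∀ t ∈ Ico 0 b, Periodic3 (u t)) {τ : ℝ} (hτ : τ ∈ Ico 0 b) :
    ∃ g : ℝ → ℝ, Continuous g ∧ (∀ t, 0 ≤ g t) ∧
      ∀ t ∈ Icc 0 τ, (∀ x, ‖fderiv ℝ (u t) x‖ ≤ g t) ∧ ∃ x, ‖fderiv ℝ (u t) x‖ = g t := by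
  have hK : IsCompact (closure Dom) := dom_bdd.isCompact_closure
  have hne : (closure Dom).Nonempty := by
    obtain ⟨y, hy, -⟩ := rep_dom (0 : V)
    exact ⟨y, hy⟩
  set c : ℝ → ℝ := fun t => max 0 (min t τ) with hc
  have hcc : Continuous c := continuous_const.max (continuous_id.min continuous_const)
  have hcI : ∀ t, c t ∈ Ico 0 b := fun t =>
    ⟨le_max_left _ _, (max_le hτ.1 (min_le_right _ _)).trans_lt hτ.2⟩
  set φ : ℝ → V → ℝ := fun t x => ‖fderiv ℝ (u (c t)) x‖ with hφ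
  have hφc : Continuous ↿φ := by
    have h1 : Continuous fun z : ℝ × V => ((c z.1, z.2) : ℝ × V) :=
      (hcc.comp continuous_fst).prodMk continuous_snd
    exact ((grad_cont hu).comp_continuous h1 fun z => ⟨hcI z.1, mem_univ _⟩).norm
  refine ⟨fun t => sSup (φ t '' closure Dom), hK.continuous_sSup hφc, fun t => ?_, fun t ht => ?_⟩
  · exact Real.sSup_nonneg fun y hy => by
      obtain ⟨x, -, rfl⟩ := hy
      exact norm_nonneg _
  · have hct : c t = t := by
      simp only [hc]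
      rw [min_eq_left ht.2, max_eq_right ht.1]
    have hcont : ContinuousOn (φ t) (closure Dom) := (hφc.comp (Continuous.prodMk_right t)).continuousOn
    refine ⟨fun x => ?_, ?_⟩
    · obtain ⟨y, hy, hf⟩ := rep_dom x
      have htI : t ∈ Ico 0 b := ⟨ht.1, ht.2.trans_lt hτ.2⟩
      have h1 : ‖fderiv ℝ (u t) y‖ = ‖fderiv ℝ (u t) x‖ := by
        rw [hf (fderiv ℝ (u t)) (hp t htI).fderiv]
      rw [← h1]
      have h2 : φ t y ≤ sSup (φ t '' closure Dom) :=
        le_csSup (hK.bddAbove_image hcont) (mem_image_of_mem _ hy)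
      simp only [hφ, hct] at h2 ⊢
      exact h2
    · obtain ⟨x, -, hx⟩ := hK.exists_sSup_image_eq hne hcont
      refine ⟨x, ?_⟩
      simp only [hx]
      simp only [hφ, hct]

/-- **No blow-up under Osgood's condition.** If `T` maps `C^k` to `C^k` with the modulus of
continuity `m` for the derivatives of order `k = 0, 1` and `∫₀¹ dr / m(r) = ∞`, the gradient of each
parallel solution stays bounded on bounded time intervals. -/
theorem osgood_side {m : ℝ → ℝ} (hpos : ∀ r, 0 < r → 0 < m r)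
    (hmono : ∀ r s, 0 < r → r ≤ s → m r ≤ m s)
    (hanti : ∀ r s, 0 < r → r ≤ s → m s / s ≤ m r / r)
    (hos : ¬ IntegrableOn (fun r => 1 / m r) (Ioc 0 1)) {T : (V → V) → V → V}
    (hreg : ∀ k : ℕ, ∃ C > 0, ∀ u (B : ℝ), ContDiff ℝ k u → Periodic3 u →
      (∀ j ≤ k, ∀ x, ‖iteratedFDeriv ℝ j u x‖ ≤ B) →
      ContDiff ℝ k (T u) ∧ (∀ x, ‖iteratedFDeriv ℝ k (T u) x‖ ≤ C * B) ∧
      ∀ x y, x ≠ y →
        ‖iteratedFDeriv ℝ k (T u) x - iteratedFDeriv ℝ k (T u) y‖ ≤ C * B * m ‖x - y‖)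
    {ε b : ℝ} {u : ℝ → V → V} {q : ℝ → V → ℝ}
    (hu : MB.IsModSol (fun u x => ε • T u x) (Ico 0 b) u q)
    (hpar : ∀ t ∈ Ico 0 b, ∀ x, u t x 0 = 0 ∧ u t x 1 = 0) :
    ∃ M : ℝ, ∀ t ∈ Ico 0 b, ∀ x, ‖fderiv ℝ (u t) x‖ ≤ M := by
  rcases le_or_gt b 0 with hb | hb
  · exact ⟨0, fun t ht => absurd (ht.1.trans_lt ht.2) (not_lt.2 hb)⟩
  have h0I : (0 : ℝ) ∈ Ico 0 b := ⟨le_rfl, hb⟩
  have hv0 := contDiff_slice hu.contDiffOn_u h0I
  obtain ⟨B₁, hB₁, hB₁'⟩ := (hu.periodic_u 0 h0I).bounded hv0.continuous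
  obtain ⟨G₁, hG₁, hG₁'⟩ := ((hu.periodic_u 0 h0I).fderiv).bounded
    (hv0.continuous_fderiv one_ne_zero)
  set B₀ := max B₁ 0 with hB₀
  set G₀ := max G₁ 0 with hG₀
  have hB00 : 0 ≤ B₀ := le_max_right _ _
  have hG00 : 0 ≤ G₀ := le_max_right _ _
  have hsup := sup_bound hu hpar fun x => (hB₁' x).trans (le_max_left B₁ 0)
  obtain ⟨C0, hC0, h0⟩ := hreg 0
  obtain ⟨C1, hC1, h1⟩ := hreg 1
  set Cs := C0 * B₀ + C1 * (B₀ + 1) with hCs
  have hCs0 : 0 ≤ Cs := by positivity
  -- the bound for the gradient of `T u`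
  have hT : ∀ t ∈ Ico 0 b, ∀ G, 0 ≤ G → (∀ x, ‖fderiv ℝ (u t) x‖ ≤ G) →
      ∀ y z, ‖T (u t) y - T (u t) z‖ ≤ Cs * (1 + G) * m (1 / (1 + G)) * ‖y - z‖ := by
    intro t ht G hG hGu
    have hv := contDiff_slice hu.contDiffOn_u ht
    obtain ⟨-, -, a3⟩ := h0 (u t) B₀ (hv.of_le zero_le_one) (hu.periodic_u t ht) (by
      intro j hj x
      obtain rfl : j = 0 := by omega
      rw [norm_iteratedFDeriv_zero]
      exact hsup t ht x)
    obtain ⟨b1, -, b3⟩ := h1 (u t) (B₀ + G) (by exact_mod_cast hv) (hu.periodic_u t ht) (by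
      intro j hj x
      have : j = 0 ∨ j = 1 := by omega
      rcases this with rfl | rfl
      · rw [norm_iteratedFDeriv_zero]
        exact (hsup t ht x).trans (by linarith)
      · rw [norm_iteratedFDeriv_one]
        exact (hGu x).trans (by linarith))
    have b1' : ContDiff ℝ 1 (T (u t)) := by exact_mod_cast b1
    have a3' : ∀ x y, x ≠ y → ‖T (u t) x - T (u t) y‖ ≤ C0 * B₀ * m ‖x - y‖ := by
      intro x y hxy
      have := a3 x y hxy
      rwa [iteratedFDeriv_zero_eq_comp, Function.comp_apply, Function.comp_apply, ← map_sub,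
        LinearIsometryEquiv.norm_map] at this
    have b3' : ∀ x y, x ≠ y → ‖fderiv ℝ (T (u t)) x - fderiv ℝ (T (u t)) y‖ ≤
        C1 * (B₀ + G) * m ‖x - y‖ := by
      intro x y hxy
      have := b3 x y hxy
      refine le_trans ?_ this
      refine ContinuousLinearMap.opNorm_le_bound _ (norm_nonneg _) fun v => ?_
      have h2 := (iteratedFDeriv ℝ 1 (T (u t)) x - iteratedFDeriv ℝ 1 (T (u t)) y).le_opNorm
        (fun _ => v)
      simpa using h2
    have hr : (0 : ℝ) < 1 / (1 + G) := by positivity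
    have hmr := hpos _ hr
    have hgrad : ∀ x, ‖fderiv ℝ (T (u t)) x‖ ≤ Cs * (1 + G) * m (1 / (1 + G)) := by
      intro x
      have h3 := interp (b1'.differentiable one_ne_zero) hpos hmono (by positivity) a3' b3' hr
        (by positivity) x
      refine h3.trans ?_
      have h4 : m (1 / (1 + G)) / (1 / (1 + G)) = (1 + G) * m (1 / (1 + G)) := by
        field_simp
      rw [h4]
      have h5 : B₀ + G ≤ (B₀ + 1) * (1 + G) := by nlinarith [mul_nonneg hB00 hG]
      calc C0 * B₀ * ((1 + G) * m (1 / (1 + G))) + C1 * (B₀ + G) * m (1 / (1 + G))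
          ≤ C0 * B₀ * ((1 + G) * m (1 / (1 + G))) +
            C1 * ((B₀ + 1) * (1 + G)) * m (1 / (1 + G)) := by gcongr
        _ = Cs * (1 + G) * m (1 / (1 + G)) := by rw [hCs]; ring
    intro y z
    exact Convex.norm_image_sub_le_of_norm_fderiv_le (𝕜 := ℝ)
      (fun x _ => (b1'.differentiable one_ne_zero) x) (fun x _ => hgrad x) convex_univ
      (mem_univ _) (mem_univ _)
  -- Osgood
  obtain ⟨M, hM⟩ := osg hpos hmono hanti hos (κ := |ε| * Cs) (G₀ := G₀) (b := b) (by positivity)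
    hG00
  refine ⟨M, fun τ hτ => ?_⟩
  obtain ⟨g, hg, hg0, hgu⟩ := exists_max hu.contDiffOn_u hu.periodic_u hτ
  have hin : ∀ t ∈ Icc 0 τ,
      g t ≤ G₀ + ∫ s in (0 : ℝ)..t, |ε| * Cs * ((1 + g s) ^ 2 * m (1 / (1 + g s))) := by
    set hh : ℝ → ℝ := fun s => |ε| * Cs * ((1 + g s) ^ 2 * m (1 / (1 + g s))) with hhh
    have hhc : Continuous hh := continuous_const.mul (hh_cont hpos hmono hanti hg hg0)
    have hhn : ∀ t, 0 ≤ hh t := fun t => by
      have h1 : 0 < m (1 / (1 + g t)) := hpos _ (by have := hg0 t; positivity)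
      have := hg0 t
      simp only [hhh]
      positivity
    intro t ht
    have htb : t ∈ Ico 0 b := ⟨ht.1, ht.2.trans_lt hτ.2⟩
    refine le_of_forall_pos_le_add fun η hη => ?_
    have h1t : 0 < 1 + t := by linarith [ht.1]
    set η' := η / (1 + t) with hη'
    have hη0 : 0 < η' := div_pos hη h1t
    set W : ℝ → ℝ := fun s => G₀ + η' + ∫ r in (0 : ℝ)..s, (hh r + η') with hW
    have hWd : ∀ s, HasDerivAt W (hh s + η') s := fun s =>
      (intervalIntegral.integral_hasDerivAt_right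
        ((hhc.add continuous_const).intervalIntegrable _ _)
        ((hhc.add continuous_const).stronglyMeasurableAtFilter _ _)
        (hhc.add continuous_const).continuousAt).const_add _
    have hW0 : W 0 = G₀ + η' := by simp [hW]
    have hWt : W t = G₀ + (∫ s in (0 : ℝ)..t, hh s) + η := by
      simp only [hW]
      rw [intervalIntegral.integral_add (hhc.intervalIntegrable _ _)
        (continuous_const.intervalIntegrable _ _), intervalIntegral.integral_const, sub_zero,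
        smul_eq_mul]
      have : η' * (1 + t) = η := div_mul_cancel₀ _ h1t.ne'
      linarith
    have hWn : 0 ≤ W t := by
      rw [hWt]
      have := intervalIntegral.integral_nonneg (μ := volume) ht.1 fun s _ => hhn s
      linarith
    have hdiff : ∀ e : V, e ≠ 0 → ∀ x, u t (x + e) 2 - u t x 2 ≤ ‖e‖ * W t := by
      intro e he x
      have hen : 0 < ‖e‖ := norm_pos_iff.2 he
      refine (touch (F := fun s x => u s (x + e) 2 - u s x 2) (B := fun s => ‖e‖ * W s)
        (τ := t) ?_ ?_ ?_ ?_ ?_ t ⟨ht.1, le_rfl⟩ x).le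
      · have hc : ContinuousOn (fun z : ℝ × V => u z.1 z.2) (Icc 0 t ×ˢ univ) :=
          hu.contDiffOn_u.continuousOn.mono
            (prod_mono (fun s hs => ⟨hs.1, hs.2.trans_lt htb.2⟩) le_rfl)
        have hc2 : ContinuousOn (fun z : ℝ × V => u z.1 (z.2 + e)) (Icc 0 t ×ˢ univ) :=
          hc.comp (f := fun z : ℝ × V => ((z.1, z.2 + e) : ℝ × V))
            (by fun_prop) fun z hz => ⟨hz.1, mem_univ _⟩
        exact ((continuous_apply (2 : Fin 3)).comp_continuousOn hc2).sub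
          ((continuous_apply (2 : Fin 3)).comp_continuousOn hc)
      · intro s hs i y
        have hsI : s ∈ Ico 0 b := ⟨hs.1, hs.2.trans_lt htb.2⟩
        simp only
        rw [hu.periodic_u s hsI i y, add_right_comm, hu.periodic_u s hsI i (y + e)]
      · exact (continuous_iff_continuousAt.2 fun s =>
          ((hWd s).const_mul ‖e‖).continuousAt).continuousOn
      · intro y
        have h2 : ‖u 0 (y + e) - u 0 y‖ ≤ G₀ * ‖y + e - y‖ :=
          Convex.norm_image_sub_le_of_norm_fderiv_le (𝕜 := ℝ)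
            (fun x _ => (hv0.differentiable one_ne_zero) x)
            (fun x _ => (hG₁' x).trans (le_max_left G₁ 0)) convex_univ (mem_univ _) (mem_univ _)
        rw [add_sub_cancel_left] at h2
        have h3 : u 0 (y + e) 2 - u 0 y 2 ≤ ‖u 0 (y + e) - u 0 y‖ :=
          (le_abs_self _).trans (norm_le_pi_norm (u 0 (y + e) - u 0 y) 2)
        show u 0 (y + e) 2 - u 0 y 2 < ‖e‖ * W 0
        rw [hW0]
        nlinarith [mul_pos hen hη0]
      · intro s hs y hy
        have hsI : s ∈ Ioo 0 b := ⟨hs.1, hs.2.trans_lt htb.2⟩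
        have hsτ : s ∈ Icc 0 τ := ⟨hs.1.le, hs.2.trans ht.2⟩
        obtain ⟨d, hd1, hd2⟩ := evol_diff hu hpar hsI e y hy
          (hT s ⟨hsI.1.le, hsI.2⟩ (g s) (hg0 s) (hgu s hsτ).1) (hgu s hsτ).1
        refine ⟨d, ‖e‖ * (hh s + η'), hd1, (hWd s).const_mul ‖e‖, hd2.trans_lt ?_⟩
        have hmg : 0 < m (1 / (1 + g s)) := hpos _ (by have := hg0 s; positivity)
        have h4 : |ε| * (Cs * (1 + g s) * m (1 / (1 + g s)) * ‖e‖) * g s ≤ ‖e‖ * hh s := by
          have h5 : |ε| * (Cs * (1 + g s) * m (1 / (1 + g s)) * ‖e‖) * g s =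
              ‖e‖ * (|ε| * Cs * ((1 + g s) * g s * m (1 / (1 + g s)))) := by ring
          rw [h5]
          simp only [hhh]
          have h6 : (1 + g s) * g s ≤ (1 + g s) ^ 2 := by nlinarith [hg0 s]
          gcongr
        calc _ ≤ ‖e‖ * hh s := h4
          _ < ‖e‖ * (hh s + η') := by gcongr; linarith
    obtain ⟨x, hx⟩ := (hgu t ht).2
    rw [← hx, ← hWt]
    have hv := contDiff_slice hu.contDiffOn_u htb
    refine (hv.differentiable one_ne_zero x).hasFDerivAt.le_of_lip' hWn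
      (Eventually.of_forall fun y => ?_)
    by_cases hyx : y = x
    · subst hyx; simp
    have hnorm : ‖u t y - u t x‖ = |u t y 2 - u t x 2| := by
      have h2 := norm_eq (v := fun _ : V => u t y - u t x) (fun _ => by
        constructor
        · simp [(hpar t htb y).1, (hpar t htb x).1]
        · simp [(hpar t htb y).2, (hpar t htb x).2]) x
      simpa using h2
    rw [hnorm, abs_le]
    have h3 := hdiff (y - x) (sub_ne_zero.2 hyx) x
    have h4 := hdiff (x - y) (sub_ne_zero.2 (Ne.symm hyx)) y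
    rw [add_sub_cancel] at h3 h4
    rw [norm_sub_rev] at h4
    constructor <;> nlinarith
  intro x
  exact ((hgu τ ⟨hτ.1, le_rfl⟩).1 x).trans (hM τ hτ g hg hg0 hin)

end Pool.Agent.Zk50.MB4
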