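import Pool.Agent.Zk50.MB4.Mp

/-! # Parallel solutions: the evolution at maxima -/

set_option autoImplicit false

open MeasureTheory Set Filter
open scoped ContDiff Topology

namespace Pool.Agent.Zk50.MB4

open Pool.Agent.H708R2.EulerSign Pool.Agent.Zk27

variable {T : (V → V) → V → V} {ε b : ℝ} {u : ℝ → V → V} {q : ℝ → V → ℝ}

section slice

variable {v : V → V} (hv : ContDiff ℝ 1 v) (hp : ∀ x, v x 0 = 0 ∧ v x 1 = 0)
  (hd : ∀ x, divergence v x = 0)

include hv hp

lemma comp_zero (x y : V) : fderiv ℝ v x y 0 = 0 ∧ fderiv ℝ v x y 1 = 0 := by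
  have h1 : ∀ i, (∀ x, v x i = 0) → fderiv ℝ v x y i = 0 := by
    intro i hi
    have h := hasFDerivAt_pi'.1 (hv.differentiable one_ne_zero x).hasFDerivAt i
    have h2 : (fun x => v x i) = fun _ => 0 := funext hi
    rw [h2] at h
    have h3 := h.unique (hasFDerivAt_const (0 : ℝ) x)
    exact congrArg (fun L : V →L[ℝ] ℝ => L y) h3
  exact ⟨h1 0 fun x => (hp x).1, h1 1 fun x => (hp x).2⟩

include hd

lemma e2_zero (x : V) : fderiv ℝ v x (Pi.single 2 1) = 0 := by
  have h1 := hd x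
  rw [divergence_eq_sum, Fin.sum_univ_three, (comp_zero hv hp x _).1, (comp_zero hv hp x _).2,
    zero_add, zero_add] at h1
  ext i
  fin_cases i
  · exact (comp_zero hv hp x _).1
  · exact (comp_zero hv hp x _).2
  · exact h1

lemma self_zero (x : V) : fderiv ℝ v x (v x) = 0 := by
  have h1 : v x = v x 2 • (Pi.single 2 1 : V) := by
    ext i
    fin_cases i
    · simp [(hp x).1]
    · simp [(hp x).2]
    · simp
  rw [h1, map_smul, e2_zero hv hp hd, smul_zero]

lemma shift2 (x : V) (s : ℝ) : v (x + Pi.single 2 s) = v x := by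
  have h1 : ∀ r : ℝ, HasDerivAt (fun r => v (x + r • (Pi.single 2 1 : V))) 0 r := by
    intro r
    have h2 : HasDerivAt (fun r : ℝ => x + r • (Pi.single 2 1 : V)) (Pi.single 2 1 : V) r := by
      have := ((hasDerivAt_id r).smul_const (Pi.single 2 1 : V)).const_add x
      simpa using this
    have h3 := ((hv.differentiable one_ne_zero _).hasFDerivAt
      (x := x + r • (Pi.single 2 1 : V))).comp_hasDerivAt r h2
    rwa [e2_zero hv hp hd] at h3
  have h4 := is_const_of_deriv_eq_zero (fun r => (h1 r).differentiableAt)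
    (fun r => (h1 r).deriv) s 0
  have h5 : s • (Pi.single 2 1 : V) = Pi.single 2 s := by
    rw [← Pi.single_smul, smul_eq_mul, mul_one]
  simpa [h5] using h4

end slice

lemma norm_eq {v : V → V} (hp : ∀ x, v x 0 = 0 ∧ v x 1 = 0) (x : V) : ‖v x‖ = |v x 2| := by
  apply le_antisymm
  · rw [pi_norm_le_iff_of_nonneg (abs_nonneg _)]
    intro i
    fin_cases i
    · simp [(hp x).1]
    · simp [(hp x).2]
    · simp
  · rw [← Real.norm_eq_abs]; exact norm_le_pi_norm _ 2


lemma hasFDerivAt_shift {E : Type*} [NormedAddCommGroup E] [NormedSpace ℝ E] {f : V → E}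
    {L : V →L[ℝ] E} {x e : V} (h : HasFDerivAt f L (x + e)) :
    HasFDerivAt (fun y => f (y + e)) L x := by
  have h1 : HasFDerivAt (fun y : V => y + e) (ContinuousLinearMap.id ℝ V) x :=
    (hasFDerivAt_id x).add_const e
  have h2 := h.comp x h1
  rwa [ContinuousLinearMap.comp_id] at h2

/-- Rolle's theorem for periodic functions in the third direction. -/
lemma rolle {f : V → ℝ} (hf : ContDiff ℝ 1 f) (hp : Periodic3 f) (x : V) :
    ∃ c : ℝ, fderiv ℝ f (x + Pi.single 2 c) (Pi.single 2 1) = 0 := by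
  have h1 : ∀ r : ℝ, HasDerivAt (fun r => f (x + r • (Pi.single 2 1 : V)))
      (fderiv ℝ f (x + r • (Pi.single 2 1 : V)) (Pi.single 2 1)) r := by
    intro r
    have h2 : HasDerivAt (fun r : ℝ => x + r • (Pi.single 2 1 : V)) (Pi.single 2 1 : V) r := by
      have := ((hasDerivAt_id r).smul_const (Pi.single 2 1 : V)).const_add x
      simpa using this
    exact ((hf.differentiable one_ne_zero _).hasFDerivAt
      (x := x + r • (Pi.single 2 1 : V))).comp_hasDerivAt r h2
  have h5 : ∀ s : ℝ, s • (Pi.single 2 1 : V) = Pi.single 2 s := by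
    intro s
    rw [← Pi.single_smul, smul_eq_mul, mul_one]
  have h6 : (fun r : ℝ => f (x + r • (Pi.single 2 1 : V))) 0 =
      (fun r : ℝ => f (x + r • (Pi.single 2 1 : V))) (2 * Real.pi) := by
    simp only [h5]
    rw [hp 2 x]
    simp
  obtain ⟨c, -, hc⟩ := exists_deriv_eq_zero (f := fun r : ℝ => f (x + r • (Pi.single 2 1 : V)))
    (by positivity : (0 : ℝ) < 2 * Real.pi)
    (fun r _ => (h1 r).continuousAt.continuousWithinAt) h6
  refine ⟨c, ?_⟩
  rw [(h1 c).deriv, h5] at hc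
  exact hc

section sol

variable (hu : MB.IsModSol (fun u x => ε • T u x) (Ico 0 b) u q)
  (hpar : ∀ t ∈ Ico 0 b, ∀ x, u t x 0 = 0 ∧ u t x 1 = 0)

include hu hpar

/-- The evolution of the third component. -/
lemma evol {t : ℝ} (ht : t ∈ Ioo 0 b) (x : V) :
    HasDerivAt (fun s => u s x 2) (-(fderiv ℝ (u t) x (ε • T (u t) x) 2) -
      fderiv ℝ (q t) x (Pi.single 2 1)) t := by
  have htI : t ∈ Ico 0 b := ⟨ht.1.le, ht.2⟩
  have hv := contDiff_slice hu.contDiffOn_u htI
  have hmem : Ico 0 b ∈ 𝓝 t := Ico_mem_nhds ht.1 ht.2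
  have h1 : HasDerivAt (fun s => u s x 2) (derivWithin (fun s => u s x 2) (Ico 0 b) t) t := by
    have hd : DifferentiableAt ℝ (fun z : ℝ × V => u z.1 z.2) (t, x) :=
      (hu.contDiffOn_u.differentiableOn one_ne_zero (t, x) ⟨htI, mem_univ _⟩).differentiableAt
        (prod_mem_nhds hmem univ_mem)
    have hd2 : DifferentiableAt ℝ ((fun z : ℝ × V => u z.1 z.2) ∘ fun s => (s, x)) t :=
      DifferentiableAt.comp t hd (differentiableAt_id.prodMk (differentiableAt_const x))
    have hd3 : DifferentiableAt ℝ (fun s => u s x 2) t := differentiableAt_pi.1 hd2 2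
    rw [derivWithin_of_mem_nhds hmem]
    exact hd3.hasDerivAt
  have h2 := hu.momentum t htI x 2
  have h3 : ∑ j, (u t x j + (ε • T (u t) x) j) *
      (fderiv ℝ (u t) x (Pi.single j 1) 2 - fderiv ℝ (u t) x (Pi.single 2 1) j)
      = fderiv ℝ (u t) x (ε • T (u t) x) 2 := by
    have h4 := e2_zero hv (hpar t htI) (hu.div_free t htI) x
    have h5 := self_zero hv (hpar t htI) (hu.div_free t htI) x
    rw [h4]
    simp only [Pi.zero_apply, sub_zero]
    have h6 := sum_mul_clm (fderiv ℝ (u t) x) (u t x + ε • T (u t) x) 2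
    simp only [Pi.add_apply] at h6
    rw [h6, map_add, h5, zero_add]
  rw [h3] at h2
  have h7 : derivWithin (fun s => u s x 2) (Ico 0 b) t =
      -(fderiv ℝ (u t) x (ε • T (u t) x) 2) - fderiv ℝ (q t) x (Pi.single 2 1) := by linarith
  rwa [h7] at h1

/-- The evolution of the extrema of the third component. -/
lemma evol_sup {t : ℝ} (ht : t ∈ Ioo 0 b) (σ : ℝ) (x : V)
    (hx : ∀ y, σ * u t y 2 ≤ σ * u t x 2) : HasDerivAt (fun s => σ * u s x 2) 0 t := by
  have htI : t ∈ Ico 0 b := ⟨ht.1.le, ht.2⟩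
  have hv := contDiff_slice hu.contDiffOn_u htI
  obtain ⟨c, hc⟩ := rolle (contDiff_slice hu.contDiffOn_q htI) (hu.periodic_q t htI) x
  set x' := x + Pi.single 2 c with hx'
  have hsh : ∀ s ∈ Ico 0 b, u s x' = u s x := fun s hs =>
    shift2 (contDiff_slice hu.contDiffOn_u hs) (hpar s hs) (hu.div_free s hs) x c
  have h1 := evol hu hpar ht x'
  rw [hc, sub_zero] at h1
  have h2 : IsLocalMax (fun y => σ * u t y 2) x' :=
    Filter.Eventually.of_forall fun y => by
      have := hx y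
      simp only [hsh t htI]
      exact this
  have h3 : HasFDerivAt (fun y => σ * u t y 2)
      (σ • (ContinuousLinearMap.proj 2 ∘L fderiv ℝ (u t) x')) x' := by
    have h4 := hasFDerivAt_pi'.1 (hv.differentiable one_ne_zero x').hasFDerivAt 2
    exact h4.const_mul σ
  have h5 := h2.hasFDerivAt_eq_zero h3
  have h6 : σ * fderiv ℝ (u t) x' (ε • T (u t) x') 2 = 0 := by
    exact congrArg (fun L : V →L[ℝ] ℝ => L (ε • T (u t) x')) h5
  have h7 := h1.const_mul σ
  have h8 : σ * -(fderiv ℝ (u t) x' (ε • T (u t) x')) 2 = 0 := by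
    rw [mul_neg, h6, neg_zero]
  rw [h8] at h7
  refine h7.congr_of_eventuallyEq ?_
  filter_upwards [Ico_mem_nhds ht.1 ht.2] with s hs
  rw [hsh s hs]

/-- The evolution of the maxima of the differences of the third component. -/
lemma evol_diff {t : ℝ} (ht : t ∈ Ioo 0 b) (e : V) (x : V)
    (hx : ∀ y, u t (y + e) 2 - u t y 2 ≤ u t (x + e) 2 - u t x 2) {Λ G : ℝ}
    (hΛ : ∀ y z, ‖T (u t) y - T (u t) z‖ ≤ Λ * ‖y - z‖) (hG : ∀ y, ‖fderiv ℝ (u t) y‖ ≤ G) :
    ∃ d, HasDerivAt (fun s => u s (x + e) 2 - u s x 2) d t ∧ d ≤ |ε| * (Λ * ‖e‖) * G := by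
  have htI : t ∈ Ico 0 b := ⟨ht.1.le, ht.2⟩
  have hv := contDiff_slice hu.contDiffOn_u htI
  have hq := contDiff_slice hu.contDiffOn_q htI
  have hq' : ContDiff ℝ 1 (fun y => q t (y + e) - q t y) :=
    (hq.comp (contDiff_id.add contDiff_const)).sub hq
  have hqp : Periodic3 (fun y => q t (y + e) - q t y) := by
    intro i y
    simp only
    rw [hu.periodic_q t htI i y, add_right_comm, hu.periodic_q t htI i (y + e)]
  obtain ⟨c, hc⟩ := rolle hq' hqp x
  set x' := x + Pi.single 2 c with hx'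
  have hsh : ∀ s ∈ Ico 0 b, ∀ y, u s (y + Pi.single 2 c) = u s y := fun s hs y =>
    shift2 (contDiff_slice hu.contDiffOn_u hs) (hpar s hs) (hu.div_free s hs) y c
  have hsh1 : ∀ s ∈ Ico 0 b, u s x' = u s x := fun s hs => hsh s hs x
  have hsh2 : ∀ s ∈ Ico 0 b, u s (x' + e) = u s (x + e) := fun s hs => by
    rw [hx', add_right_comm]; exact hsh s hs _
  have h1 := (evol hu hpar ht (x' + e)).sub (evol hu hpar ht x')
  have hqd : fderiv ℝ (fun y => q t (y + e) - q t y) x' =
      fderiv ℝ (q t) (x' + e) - fderiv ℝ (q t) x' := by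
    have ha : HasFDerivAt (fun y => q t (y + e)) (fderiv ℝ (q t) (x' + e)) x' :=
      hasFDerivAt_shift (hq.differentiable one_ne_zero (x' + e)).hasFDerivAt
    exact (ha.sub (hq.differentiable one_ne_zero x').hasFDerivAt).fderiv
  rw [hqd] at hc
  have h2 : IsLocalMax (fun y => u t (y + e) 2 - u t y 2) x' :=
    Filter.Eventually.of_forall fun y => by
      have := hx y
      simp only [hsh1 t htI, hsh2 t htI]
      exact this
  have h3 : HasFDerivAt (fun y => u t (y + e) 2 - u t y 2)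
      ((ContinuousLinearMap.proj 2 ∘L fderiv ℝ (u t) (x' + e)) -
        (ContinuousLinearMap.proj 2 ∘L fderiv ℝ (u t) x')) x' := by
    have h4 := hasFDerivAt_pi'.1 (hv.differentiable one_ne_zero x').hasFDerivAt 2
    have h4' := hasFDerivAt_pi'.1
      (hasFDerivAt_shift (hv.differentiable one_ne_zero (x' + e)).hasFDerivAt) 2
    exact h4'.sub h4
  have h5 := h2.hasFDerivAt_eq_zero h3
  have h6 : ∀ y : V, fderiv ℝ (u t) (x' + e) y 2 = fderiv ℝ (u t) x' y 2 := by
    intro y
    have := congrArg (fun L : V →L[ℝ] ℝ => L y) h5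
    simp only [ContinuousLinearMap.sub_apply, ContinuousLinearMap.comp_apply,
      ContinuousLinearMap.proj_apply, ContinuousLinearMap.zero_apply] at this
    linarith
  refine ⟨-(fderiv ℝ (u t) (x' + e) (ε • T (u t) (x' + e)) 2) -
      fderiv ℝ (q t) (x' + e) (Pi.single 2 1) - (-(fderiv ℝ (u t) x' (ε • T (u t) x') 2) -
      fderiv ℝ (q t) x' (Pi.single 2 1)), ?_, ?_⟩
  · refine h1.congr_of_eventuallyEq ?_
    filter_upwards [Ico_mem_nhds ht.1 ht.2] with s hs
    simp only [Pi.sub_apply]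
    rw [hsh1 s hs, hsh2 s hs]
  · rw [ContinuousLinearMap.sub_apply] at hc
    rw [h6]
    have h7 : -(fderiv ℝ (u t) x' (ε • T (u t) (x' + e)) 2) -
        fderiv ℝ (q t) (x' + e) (Pi.single 2 1) - (-(fderiv ℝ (u t) x' (ε • T (u t) x') 2) -
        fderiv ℝ (q t) x' (Pi.single 2 1)) =
        -(fderiv ℝ (u t) x' (ε • (T (u t) (x' + e) - T (u t) x')) 2) := by
      have h8 : fderiv ℝ (u t) x' (ε • (T (u t) (x' + e) - T (u t) x')) 2 =
          fderiv ℝ (u t) x' (ε • T (u t) (x' + e)) 2 - fderiv ℝ (u t) x' (ε • T (u t) x') 2 := by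
        rw [smul_sub, map_sub, Pi.sub_apply]
      rw [h8]
      linarith
    rw [h7]
    have hG0 : 0 ≤ G := (norm_nonneg _).trans (hG x')
    calc -(fderiv ℝ (u t) x' (ε • (T (u t) (x' + e) - T (u t) x')) 2)
        ≤ ‖fderiv ℝ (u t) x' (ε • (T (u t) (x' + e) - T (u t) x')) 2‖ := neg_le_abs _
      _ ≤ ‖fderiv ℝ (u t) x' (ε • (T (u t) (x' + e) - T (u t) x'))‖ := norm_le_pi_norm _ 2
      _ ≤ ‖fderiv ℝ (u t) x'‖ * ‖ε • (T (u t) (x' + e) - T (u t) x')‖ :=
          ContinuousLinearMap.le_opNorm _ _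
      _ ≤ G * (|ε| * (Λ * ‖e‖)) := by
          rw [norm_smul, Real.norm_eq_abs]
          have h9 := hΛ (x' + e) x'
          rw [add_sub_cancel_left] at h9
          gcongr
          exact hG x'
      _ = |ε| * (Λ * ‖e‖) * G := by ring

/-- The third component stays bounded by its initial bound. -/
lemma sup_bound {B₀ : ℝ} (h0 : ∀ x, ‖u 0 x‖ ≤ B₀) : ∀ t ∈ Ico 0 b, ∀ x, ‖u t x‖ ≤ B₀ := by
  intro t ht x
  have hone : ∀ σ : ℝ, |σ| = 1 → σ * u t x 2 ≤ B₀ := by
    intro σ hσ
    refine le_of_forall_pos_le_add fun η hη => ?_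
    have hη' : 0 < η / (1 + t) := div_pos hη (by linarith [ht.1])
    have h1 := touch (F := fun s x => σ * u s x 2) (B := fun s => B₀ + η / (1 + t) * (1 + s))
      (τ := t) ?_ ?_ ?_ ?_ ?_ t ⟨ht.1, le_rfl⟩ x
    · have h2 : η / (1 + t) * (1 + t) = η := div_mul_cancel₀ _ (by linarith [ht.1])
      rw [h2] at h1
      exact h1.le
    · have hc : ContinuousOn (fun z : ℝ × V => u z.1 z.2) (Icc 0 t ×ˢ univ) :=
        hu.contDiffOn_u.continuousOn.mono (prod_mono (fun s hs => ⟨hs.1, hs.2.trans_lt ht.2⟩) le_rfl)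
      exact continuousOn_const.mul ((continuous_apply (2 : Fin 3)).comp_continuousOn hc)
    · intro s hs i y
      simp only
      rw [hu.periodic_u s ⟨hs.1, hs.2.trans_lt ht.2⟩ i y]
    · fun_prop
    · intro y
      have h3 : σ * u 0 y 2 ≤ B₀ := by
        calc σ * u 0 y 2 ≤ |σ * u 0 y 2| := le_abs_self _
          _ = |u 0 y 2| := by rw [abs_mul, hσ, one_mul]
          _ ≤ ‖u 0 y‖ := by rw [← Real.norm_eq_abs]; exact norm_le_pi_norm _ 2
          _ ≤ B₀ := h0 y
      linarith [mul_pos hη' (by linarith : (0 : ℝ) < 1 + 0)]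
    · intro s hs y hy
      refine ⟨0, η / (1 + t), evol_sup hu hpar ⟨hs.1, hs.2.trans_lt ht.2⟩ σ y hy, ?_, hη'⟩
      have h4 : HasDerivAt (fun s : ℝ => B₀ + η / (1 + t) * (1 + s)) (η / (1 + t) * 1) s :=
        (((hasDerivAt_id s).const_add 1).const_mul (η / (1 + t))).const_add B₀
      rwa [mul_one] at h4
  rw [norm_eq (hpar t ht), abs_le]
  constructor
  · have := hone (-1) (by simp)
    linarith
  · have := hone 1 (by simp)
    linarith

end sol

end Pool.Agent.Zk50.MB4
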