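import Pool.Agent.Zk27.MB.E

/-! # A maximum principle on the torus and an interpolation inequality -/

set_option autoImplicit false

open MeasureTheory Set Filter
open scoped ContDiff Topology

namespace Pool.Agent.Zk50.MB4

open Pool.Agent.H708R2.EulerSign Pool.Agent.Zk27

/-- Each point has a representative in the closure of the cell. -/
lemma rep_dom (x : V) : ∃ y ∈ closure Dom, ∀ {E : Type} (f : V → E), Periodic3 f → f y = f x := by
  obtain ⟨g, hg, -⟩ := dom_exists_unique x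
  have h2 : (g +ᵥ x : V) = x + g := by rw [add_comm]; rfl
  refine ⟨x + (g : V), ?_, fun f hp => ?_⟩
  · rw [← h2]; exact subset_closure hg
  · exact hp.lat g.2 x

/-- A function which lies below a barrier at the time `0` and whose time derivative at spatial
maxima is smaller than the one of the barrier stays below the barrier. -/
lemma touch {F : ℝ → V → ℝ} {B : ℝ → ℝ} {τ : ℝ}
    (hF : ContinuousOn (fun z : ℝ × V => F z.1 z.2) (Icc 0 τ ×ˢ univ))
    (hper : ∀ t ∈ Icc 0 τ, Periodic3 (F t)) (hB : ContinuousOn B (Icc 0 τ))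
    (h0 : ∀ x, F 0 x < B 0)
    (hstep : ∀ t ∈ Ioc 0 τ, ∀ x, (∀ y, F t y ≤ F t x) →
      ∃ d d', HasDerivAt (fun s => F s x) d t ∧ HasDerivAt B d' t ∧ d < d') :
    ∀ t ∈ Icc 0 τ, ∀ x, F t x < B t := by
  by_contra hcon
  push Not at hcon
  obtain ⟨t₀, ht₀, x₀, hx₀⟩ := hcon
  have hK : IsCompact (Icc 0 τ ×ˢ closure Dom) := isCompact_Icc.prod dom_bdd.isCompact_closure
  set S : Set (ℝ × V) := {z ∈ Icc 0 τ ×ˢ closure Dom | B z.1 ≤ F z.1 z.2} with hS
  have hFK : ContinuousOn (fun z : ℝ × V => F z.1 z.2) (Icc 0 τ ×ˢ closure Dom) :=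
    hF.mono (prod_mono le_rfl (subset_univ _))
  have hBK : ContinuousOn (fun z : ℝ × V => B z.1) (Icc 0 τ ×ˢ closure Dom) :=
    hB.comp continuousOn_fst fun z hz => hz.1
  have hSc : IsCompact S := by
    have h1 : IsClosed S := hK.isClosed.isClosed_le hBK hFK
    exact hK.of_isClosed_subset h1 fun z hz => hz.1
  have hne : S.Nonempty := by
    obtain ⟨y, hy, hf⟩ := rep_dom x₀
    exact ⟨(t₀, y), ⟨ht₀, hy⟩, by simpa [hf (F t₀) (hper t₀ ht₀)] using hx₀⟩
  obtain ⟨⟨t, x⟩, hz, hmin⟩ := hSc.exists_isMinOn hne continuous_fst.continuousOn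
  have htI : t ∈ Icc 0 τ := hz.1.1
  have hbefore : ∀ s ∈ Icc 0 τ, s < t → ∀ y, F s y < B s := by
    intro s hs hst y
    by_contra h
    push Not at h
    obtain ⟨y', hy', hf⟩ := rep_dom y
    have h1 : ((s, y') : ℝ × V) ∈ S := ⟨⟨hs, hy'⟩, by simpa [hf (F s) (hper s hs)] using h⟩
    exact absurd (hmin h1) (not_le.2 hst)
  have ht0 : 0 < t := by
    rcases htI.1.eq_or_lt with h | h
    · have h1 : B t ≤ F t x := hz.2
      rw [← h] at h1
      exact absurd (h0 x) (not_lt.2 h1)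
    · exact h
  have hle : ∀ y, F t y ≤ B t := by
    intro y
    have hev : ∀ᶠ s in 𝓝[<] t, s ∈ Icc 0 τ ∧ s < t := by
      filter_upwards [Ioo_mem_nhdsLT ht0] with s hs
      exact ⟨⟨hs.1.le, hs.2.le.trans htI.2⟩, hs.2⟩
    have hm : Tendsto (fun s : ℝ => s) (𝓝[<] t) (𝓝[Icc 0 τ] t) :=
      tendsto_nhdsWithin_iff.2 ⟨tendsto_id.mono_left nhdsWithin_le_nhds, hev.mono fun s h => h.1⟩
    have h1 : Tendsto B (𝓝[<] t) (𝓝 (B t)) := (hB t htI).tendsto.comp hm
    have h2 : Tendsto (fun s => F s y) (𝓝[<] t) (𝓝 (F t y)) := by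
      have h3 : ContinuousWithinAt (fun z : ℝ × V => F z.1 z.2) (Icc 0 τ ×ˢ univ) (t, y) :=
        hF (t, y) ⟨htI, mem_univ _⟩
      have h4 : Tendsto (fun s : ℝ => ((s, y) : ℝ × V)) (𝓝[<] t) (𝓝[Icc 0 τ ×ˢ univ] (t, y)) := by
        refine tendsto_nhdsWithin_iff.2 ⟨?_, hev.mono fun s h => ⟨h.1, mem_univ _⟩⟩
        exact ((continuous_id.prodMk continuous_const).tendsto t).mono_left nhdsWithin_le_nhds
      exact h3.tendsto.comp h4
    exact le_of_tendsto_of_tendsto h2 h1 (hev.mono fun s h => (hbefore s h.1 h.2 y).le)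
  have heq : F t x = B t := le_antisymm (hle x) hz.2
  obtain ⟨d, d', h1, h2, h3⟩ := hstep t ⟨ht0, htI.2⟩ x fun y => (hle y).trans heq.ge
  have h4 : HasDerivAt (fun s => F s x - B s) (d - d') t := h1.sub h2
  have h5 := (hasDerivAt_iff_tendsto_slope.1 h4).mono_left
    (nhdsWithin_mono t (fun s (hs : s < t) => ne_of_lt hs) : 𝓝[<] t ≤ 𝓝[≠] t)
  have h6 : ∀ᶠ s in 𝓝[<] t, slope (fun s => F s x - B s) t s < 0 :=
    h5.eventually_lt_const (by linarith)
  obtain ⟨s, hs1, hs2⟩ := (h6.and (Ioo_mem_nhdsLT ht0)).exists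
  have h7 := hbefore s ⟨hs2.1.le, hs2.2.le.trans htI.2⟩ hs2.2 x
  rw [slope_def_field, heq, sub_self, sub_zero] at hs1
  have h8 : 0 < (F s x - B s) / (s - t) :=
    div_pos_of_neg_of_neg (by linarith) (by linarith [hs2.2])
  linarith

variable {E : Type*} [NormedAddCommGroup E] [NormedSpace ℝ E]

/-- The gradient of a function is bounded by moduli of continuity of the function and of the
gradient. -/
lemma interp {f : V → E} (hf : Differentiable ℝ f) {m : ℝ → ℝ}
    (hpos : ∀ r, 0 < r → 0 < m r) (hmono : ∀ r s, 0 < r → r ≤ s → m r ≤ m s) {A B : ℝ} (hB : 0 ≤ B)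
    (h0 : ∀ x y, x ≠ y → ‖f x - f y‖ ≤ A * m ‖x - y‖)
    (h1 : ∀ x y, x ≠ y → ‖fderiv ℝ f x - fderiv ℝ f y‖ ≤ B * m ‖x - y‖) {r : ℝ} (hr : 0 < r)
    (hA : 0 ≤ A) (x : V) : ‖fderiv ℝ f x‖ ≤ A * (m r / r) + B * m r := by
  have key : ∀ v : V, ‖v‖ = r → ‖fderiv ℝ f x v‖ ≤ A * m r + B * m r * r := by
    intro v hv
    have hv0 : v ≠ 0 := by rintro rfl; rw [norm_zero] at hv; exact hr.ne hv
    have h2 : ‖f (x + v) - f x‖ ≤ A * m r := by
      have := h0 (x + v) x (by simpa using hv0)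
      rwa [add_sub_cancel_left, hv] at this
    have h3 : ‖f (x + v) - f x - fderiv ℝ f x (x + v - x)‖ ≤ B * m r * ‖x + v - x‖ := by
      refine Convex.norm_image_sub_le_of_norm_hasFDerivWithin_le'
        (f := f) (f' := fderiv ℝ f) (s := segment ℝ x (x + v)) (φ := fderiv ℝ f x)
        (fun y _ => (hf y).hasFDerivAt.hasFDerivWithinAt) (fun y hy => ?_)
        (convex_segment _ _) (left_mem_segment _ _ _) (right_mem_segment _ _ _)
      by_cases hyx : y = x
      · subst hyx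
        rw [sub_self, norm_zero]
        exact mul_nonneg hB (hpos r hr).le
      · refine (h1 y x hyx).trans (mul_le_mul_of_nonneg_left ?_ hB)
        have h4 : ‖y - x‖ ≤ r := by
          rw [segment_eq_image'] at hy
          obtain ⟨θ, hθ, rfl⟩ := hy
          rw [add_sub_cancel_left, add_sub_cancel_left, norm_smul, hv, Real.norm_eq_abs,
            abs_of_nonneg hθ.1]
          exact mul_le_of_le_one_left hr.le hθ.2
        exact hmono _ _ (norm_pos_iff.2 (sub_ne_zero.2 hyx)) h4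
    rw [add_sub_cancel_left, hv] at h3
    have h5 : fderiv ℝ f x v = (f (x + v) - f x) - (f (x + v) - f x - fderiv ℝ f x v) := by abel
    rw [h5]
    exact (norm_sub_le _ _).trans (add_le_add h2 h3)
  have hm := (hpos r hr).le
  refine ContinuousLinearMap.opNorm_le_bound _ (by positivity) fun v => ?_
  by_cases hv : v = 0
  · subst hv; simp
  have hn : 0 < ‖v‖ := norm_pos_iff.2 hv
  have h2 := key ((r / ‖v‖) • v) (by
    rw [norm_smul, Real.norm_eq_abs, abs_of_pos (by positivity)]; field_simp)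
  rw [map_smul, norm_smul, Real.norm_eq_abs, abs_of_pos (by positivity)] at h2
  have h3 : ‖fderiv ℝ f x v‖ = ‖v‖ / r * (r / ‖v‖ * ‖fderiv ℝ f x v‖) := by field_simp
  rw [h3]
  calc ‖v‖ / r * (r / ‖v‖ * ‖fderiv ℝ f x v‖) ≤ ‖v‖ / r * (A * m r + B * m r * r) := by gcongr
    _ = (A * (m r / r) + B * m r) * ‖v‖ := by field_simp

end Pool.Agent.Zk50.MB4
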